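import Pool.Agent.Helper85_SIQ.Kkp
import Pool.Agent.Helper76_SIQ.TAV

/-!
# SIQ, module PR6: symmetry of the scheme
-/

set_option autoImplicit false

open MeasureTheory Filter Topology

namespace Pool.Agent.SIQ.H81

open Pool.Agent.SIU

/-- the averages converge, tested on a continuous current -/
theorem cur_lim (hAvf : AvfStmt) (hUni : UniStmt) {q : ℕ} {T : X1.Current q}
    (hT : X1.IsCont T) (ε : ℕ → Fin 3 → ℝ) (hε : ∀ n, Ad (ε n))
    (h0 : ∀ i, Tendsto (fun n => ε n i) atTop (𝓝 0)) (β : X1.Form (2 * q)) :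
    Tendsto (fun n => T (toF (Av (ε n) β.1))) atTop (𝓝 (T β)) := by
  obtain ⟨Q, C, hQ, hQU, h⟩ := hT
  rw [Metric.tendsto_atTop]
  intro e he
  have hc : 0 < e / (|C| + 1) := by positivity
  have hev := hUni (2 * q) β ε hε h0 Q hQ hQU (e / (|C| + 1)) hc
  obtain ⟨N, hN⟩ := eventually_atTop.1 hev
  refine ⟨N, fun n hn => ?_⟩
  rw [Real.dist_eq, ← map_sub]
  have h1 := h (toF (Av (ε n) β.1) - β) (e / (|C| + 1)) (fun z hz => by
    have h2 : (toF (Av (ε n) β.1) - β).1 z = (toF (Av (ε n) β.1)).1 z - β.1 z := rfl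
    rw [h2, H76.toF_Av hAvf (hε n) β (hQU hz)]
    exact hN n hn z hz)
  calc |T (toF (Av (ε n) β.1) - β)| ≤ C * (e / (|C| + 1)) := h1
    _ ≤ |C| * (e / (|C| + 1)) := mul_le_mul_of_nonneg_right (le_abs_self C) hc.le
    _ < (|C| + 1) * (e / (|C| + 1)) := mul_lt_mul_of_pos_right (by linarith) hc
    _ = e := by field_simp

/-- **PR6** -/
theorem pr6 (hSym : SymStmt) (hUni : UniStmt) (hAvf : AvfStmt) (hKkp : KkpStmt)
    (hNdg : NdgStmt) (hInv : InvStmt) (hPrf : PrfStmt) (hQua : QuaStmt) (hRho : RhoStmt) :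
    Pr6Stmt := by
  intro δ hδ p q hpq T S hT hS
  have hqp : q + p = 3 := by omega
  set ε : ℕ → Fin 3 → ℝ := fun n _ => 1 / ((n : ℝ) + 2) with hεd
  have hε : ∀ n, Ad (ε n) := by
    intro n i
    have h1 : (0 : ℝ) < (n : ℝ) + 2 := by positivity
    have h2 : (0 : ℝ) ≤ (n : ℝ) := Nat.cast_nonneg n
    refine ⟨div_pos one_pos h1, ?_⟩
    show 1 / ((n : ℝ) + 2) < 1
    rw [div_lt_one h1]
    linarith
  have h0 : ∀ i, Tendsto (fun n => ε n i) atTop (𝓝 0) := by
    intro i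
    show Tendsto (fun n : ℕ => 1 / ((n : ℝ) + 2)) atTop (𝓝 0)
    have h1 : Tendsto (fun n : ℕ => (n : ℝ) + 2) atTop atTop :=
      tendsto_atTop_add_const_right _ _ tendsto_natCast_atTop_atTop
    refine h1.inv_tendsto_atTop.congr fun n => ?_
    show ((n : ℝ) + 2)⁻¹ = 1 / ((n : ℝ) + 2)
    rw [one_div]
  obtain ⟨-, hpT, -, -, -⟩ := hKkp δ hδ p q hpq T hT
  obtain ⟨-, hpS, -, -, -⟩ := hKkp δ hδ q p hqp S hS
  have hkl : 2 * q + 2 * p = 6 := by omega
  have key : ∀ n, toF (Av δ (KK (ε n) q p S).1) = toF (Av (ε n) (KK δ q p S).1) := by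
    intro n
    obtain ⟨-, hpn, -, -, -⟩ := hKkp (ε n) (hε n) q p hqp S hS
    set A : X1.Form (2 * q) := toF (Av δ (KK (ε n) q p S).1) with hA
    set B : X1.Form (2 * q) := toF (Av (ε n) (KK δ q p S).1) with hB
    apply form_ext
    intro z hz
    have h1 := hNdg.1 (2 * q) (2 * p) hkl (A - B).1 (A - B).2.1 (A - B).2.2.1 Set.univ
      isOpen_univ (fun _ _ _ _ => Set.mem_univ _) (fun β _ _ => by
        rw [H85.pair_sub hPrf hkl A B β]
        have e1 : X1.pair A.1 β.1 = S (toF (Av (ε n) (toF (Av δ β.1)).1)) := by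
          rw [H85.pair_congr (a' := Av δ (KK (ε n) q p S).1) (b' := β.1)
            (fun z hz => H76.toF_Av hAvf hδ _ hz) (fun _ _ => rfl),
            (hSym δ (ε n) hδ (hε n)).1 (2 * q) (2 * p) hkl (KK (ε n) q p S) β,
            H85.pair_congr (a' := (KK (ε n) q p S).1) (b' := (toF (Av δ β.1)).1)
            (fun _ _ => rfl) (fun z hz => (H76.toF_Av hAvf hδ _ hz).symm), hpn]
        have e2 : X1.pair B.1 β.1 = S (toF (Av δ (toF (Av (ε n) β.1)).1)) := by
          rw [H85.pair_congr (a' := Av (ε n) (KK δ q p S).1) (b' := β.1)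
            (fun z hz => H76.toF_Av hAvf (hε n) _ hz) (fun _ _ => rfl),
            (hSym (ε n) δ (hε n) hδ).1 (2 * q) (2 * p) hkl (KK δ q p S) β,
            H85.pair_congr (a' := (KK δ q p S).1) (b' := (toF (Av (ε n) β.1)).1)
            (fun _ _ => rfl) (fun z hz => (H76.toF_Av hAvf (hε n) _ hz).symm), hpS]
        have e3 : toF (Av (ε n) (toF (Av δ β.1)).1) = toF (Av δ (toF (Av (ε n) β.1)).1) := by
          apply form_ext
          intro w hw
          rw [H76.toF_Av hAvf (hε n) _ hw, H76.toF_Av hAvf hδ _ hw,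
            H76.Av_congr hQua hRho (hε n) (β' := Av δ β.1)
              (fun z hz => H76.toF_Av hAvf hδ _ hz) hw,
            H76.Av_congr hQua hRho hδ (β' := Av (ε n) β.1)
              (fun z hz => H76.toF_Av hAvf (hε n) _ hz) hw]
          exact ((hSym δ (ε n) hδ (hε n)).2 (2 * p) β w hw).symm
        rw [e1, e2, e3, sub_self]) z ⟨hz, Set.mem_univ _⟩
    have h2 : (A - B).1 z = A.1 z - B.1 z := rfl
    rw [h2] at h1
    exact sub_eq_zero.1 h1
  have step : ∀ n, S (toF (Av (ε n) (KK δ p q T).1)) = T (toF (Av (ε n) (KK δ q p S).1)) := by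
    intro n
    obtain ⟨-, hpn, -, -, -⟩ := hKkp (ε n) (hε n) q p hqp S hS
    rw [← hpn (KK δ p q T), (hInv (2 * q) (2 * p) hkl _ _ (KK (ε n) q p S).2.1
      (KK (ε n) q p S).2.2.1 (KK δ p q T).2.1 (KK δ p q T).2.2.1).2.2, hpT, key n]
    have : ((-1 : ℝ)) ^ (2 * q * (2 * p)) = 1 := by
      rw [mul_assoc, pow_mul]
      norm_num
    rw [this, one_mul]
  have l1 := cur_lim hAvf hUni hS ε hε h0 (KK δ p q T)
  have l2 := cur_lim hAvf hUni hT ε hε h0 (KK δ q p S)
  exact tendsto_nhds_unique l1 (l2.congr fun n => (step n).symm)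

end Pool.Agent.SIQ.H81
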